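import Mathlib

/-!
# DNF formulas and parities
-/

set_option autoImplicit false

namespace Pool.Agent.Q330.DNF

open Finset

/-- DNF formulas with `s` terms over `n` variables; a term is the set of its literals, the literal
`(i, b)` says that the variable `x i` has the value `b` -/
abbrev Formula (s n : ℕ) := Fin s → Finset (Fin n × Bool)

/-- the value of a DNF formula -/
def Formula.eval {s n : ℕ} (D : Formula s n) (x : Fin n → Bool) : Bool :=
  decide (∃ t, ∀ l ∈ D t, x l.1 = l.2)

/-- every term has at most `w` literals -/
def Formula.Width {s n : ℕ} (D : Formula s n) (w : ℕ) : Prop := ∀ t, (D t).card ≤ w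

/-- the parity of the number of the zeros in `S`: it is true if this number is even -/
def par {n : ℕ} (S : Finset (Fin n)) (x : Fin n → Bool) : Bool :=
  decide (Even (S.filter fun i => x i = false).card)

/-- the even subsets of `S` -/
abbrev EvenSub {n : ℕ} (S : Finset (Fin n)) := {U : Finset (Fin n) // U ⊆ S ∧ Even U.card}

theorem card_evenSub {n : ℕ} (S : Finset (Fin n)) (hS : S.Nonempty) :
    Nat.card (EvenSub S) ≤ 2 ^ (S.card - 1) := by
  classical
  obtain ⟨a, ha⟩ := hS
  have h : Function.Injective (fun U : EvenSub S =>
      (⟨U.1.erase a, mem_powerset.2 (erase_subset_erase a U.2.1)⟩ :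
        {W // W ∈ (S.erase a).powerset})) := by
    rintro ⟨U, hU, hU2⟩ ⟨W, hW, hW2⟩ he
    have h1 : U.erase a = W.erase a := congrArg (fun z => z.1) he
    apply Subtype.ext
    show U = W
    by_cases hau : a ∈ U <;> by_cases haw : a ∈ W
    · rw [← insert_erase hau, ← insert_erase haw, h1]
    · exfalso
      rw [erase_eq_of_notMem haw] at h1
      have h2 := card_erase_add_one hau
      rw [h1] at h2
      rw [← h2] at hU2
      exact (Nat.not_even_iff_odd.2 hW2.add_one) hU2
    · exfalso
      rw [erase_eq_of_notMem hau] at h1
      have h2 := card_erase_add_one haw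
      rw [← h1] at h2
      rw [← h2] at hW2
      exact (Nat.not_even_iff_odd.2 hU2.add_one) hW2
    · rwa [erase_eq_of_notMem hau, erase_eq_of_notMem haw] at h1
  have h2 := Nat.card_le_card_of_injective _ h
  refine h2.trans (le_of_eq ?_)
  rw [Nat.card_eq_fintype_card, Fintype.card_coe, card_powerset, card_erase_of_mem ha]

theorem exists_surj {n s : ℕ} (S : Finset (Fin n)) (hS : S.Nonempty)
    (hs : 2 ^ (S.card - 1) ≤ s) : ∃ f : Fin s → EvenSub S, Function.Surjective f := by
  classical
  have hne : Nonempty (EvenSub S) := ⟨⟨∅, empty_subset _, by simp⟩⟩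
  have hc : Nat.card (EvenSub S) ≤ Nat.card (Fin s) := by
    rw [Nat.card_eq_fintype_card (α := Fin s), Fintype.card_fin]
    exact (card_evenSub S hS).trans hs
  obtain ⟨e⟩ := Function.Embedding.nonempty_of_card_le (α := EvenSub S) (β := Fin s) (by
    rwa [← Nat.card_eq_fintype_card, ← Nat.card_eq_fintype_card])
  exact ⟨Function.invFun e, Function.invFun_surjective e.injective⟩

/-- the parity of `k` variables is a DNF formula with `2 ^ (k - 1)` terms of width `k` -/
theorem exists_formula {n s : ℕ} (S : Finset (Fin n)) (hS : S.Nonempty)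
    (hs : 2 ^ (S.card - 1) ≤ s) :
    ∃ D : Formula s n, D.Width S.card ∧ ∀ x, D.eval x = par S x := by
  classical
  obtain ⟨f, hf⟩ := exists_surj S hS hs
  refine ⟨fun t => S.image fun i => (i, !decide (i ∈ (f t).1)), fun t => card_image_le,
    fun x => ?_⟩
  unfold Formula.eval par
  apply decide_eq_decide.2
  constructor
  · rintro ⟨t, ht⟩
    have h1 : (S.filter fun i => x i = false) = (f t).1 := by
      ext i
      rw [mem_filter]
      constructor
      · rintro ⟨hi, hx⟩
        have h2 := ht _ (mem_image_of_mem (fun i => (i, !decide (i ∈ (f t).1))) hi)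
        simp only at h2
        rw [hx] at h2
        by_contra hcon
        rw [decide_eq_false hcon] at h2
        exact Bool.noConfusion h2
      · intro hi
        have h3 := (f t).2.1 hi
        refine ⟨h3, ?_⟩
        have h2 := ht _ (mem_image_of_mem (fun i => (i, !decide (i ∈ (f t).1))) h3)
        simp only at h2
        rw [h2, decide_eq_true hi]
        rfl
    rw [h1]
    exact (f t).2.2
  · intro he
    obtain ⟨t, ht⟩ := hf ⟨S.filter fun i => x i = false, filter_subset _ _, he⟩
    refine ⟨t, fun l hl => ?_⟩
    rw [mem_image] at hl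
    obtain ⟨i, hi, rfl⟩ := hl
    simp only
    rw [ht]
    cases hx : x i with
    | true =>
      rw [decide_eq_false]
      · rfl
      · rw [mem_filter]
        rintro ⟨-, h⟩
        rw [hx] at h
        exact Bool.noConfusion h
    | false =>
      rw [decide_eq_true]
      · rfl
      · rw [mem_filter]
        exact ⟨hi, hx⟩

end Pool.Agent.Q330.DNF
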