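import Mathlib
import Pool.Agent.TH440.LD.Fourier
import Pool.Agent.Q330.DNF.Par

/-!
# Parities and characters
-/

set_option autoImplicit false

namespace Pool.Agent.Q330.DNF

open Finset Pool.Agent.TH440.LD

theorem sgn_par {n : ℕ} (S : Finset (Fin n)) (x : Fin n → Bool) :
    sgn (par S x) = ∏ i ∈ S, sgn (x i) := by
  have h1 : ∏ i ∈ S, sgn (x i) = (-1) ^ (S.filter fun i => x i = false).card := by
    have e : ∀ i ∈ S, sgn (x i) = if x i = false then (-1 : ℝ) else 1 := by
      intro i _
      cases x i <;> simp [sgn]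
    rw [prod_congr rfl e, prod_ite, prod_const_one, mul_one, prod_const]
  rw [h1]
  unfold par sgn
  by_cases h : Even (S.filter fun i => x i = false).card
  · rw [decide_eq_true h, h.neg_one_pow]
    simp
  · rw [decide_eq_false h, (Nat.not_even_iff_odd.1 h).neg_one_pow]
    simp

/-- orthogonality of the characters -/
theorem sum_chi {ι : Type} [Fintype ι] [DecidableEq ι] (S S' : Finset ι) :
    ∑ x : ι → Bool, (∏ i ∈ S, sgn (x i)) * ∏ i ∈ S', sgn (x i) =
      if S = S' then (2 : ℝ) ^ Fintype.card ι else 0 := by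
  have h1 : ∀ x : ι → Bool, (∏ i ∈ S, sgn (x i)) * ∏ i ∈ S', sgn (x i) =
      ∏ i, ((if i ∈ S then sgn (x i) else 1) * if i ∈ S' then sgn (x i) else 1) := by
    intro x
    rw [prod_mul_distrib, prod_ite_mem, prod_ite_mem, univ_inter, univ_inter]
  have h2 := Finset.prod_univ_sum (fun _ : ι => (univ : Finset Bool))
    (fun (i : ι) (b : Bool) => ((if i ∈ S then sgn b else 1) * if i ∈ S' then sgn b else 1))
  rw [Fintype.piFinset_univ] at h2
  rw [sum_congr rfl (fun x _ => h1 x), ← h2]
  split_ifs with h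
  · subst h
    have h3 : ∀ i, (∑ b : Bool, ((if i ∈ S then sgn b else 1) * if i ∈ S then sgn b else 1)) =
        (2 : ℝ) := by
      intro i
      by_cases hi : i ∈ S
      · simp [hi, sgn]
        norm_num
      · simp [hi]
    rw [prod_congr rfl (fun i _ => h3 i), prod_const, card_univ]
  · obtain ⟨i, hi⟩ : ∃ i, ¬ (i ∈ S ↔ i ∈ S') := by
      by_contra hcon
      push Not at hcon
      exact h (Finset.ext hcon)
    refine prod_eq_zero (mem_univ i) ?_
    by_cases h3 : i ∈ S <;> by_cases h4 : i ∈ S'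
    · exact absurd (iff_of_true h3 h4) hi
    · simp [h3, h4, sgn]
    · simp [h3, h4, sgn]
    · exact absurd (iff_of_false h3 h4) hi

end Pool.Agent.Q330.DNF
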