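import Mathlib
import Pool.Agent.Q330.DNF.Chi

/-!
# Predictors of low degree
-/

set_option autoImplicit false

namespace Pool.Agent.Q330.DNF

open Finset Pool.Agent.TH440.LD

/-- the arguments of a predictor: the attribute vectors `X` of `N` examples, their labels `y`, and
the fresh point `x` -/
abbrev Pred (N n : ℕ) := (Fin N → Fin n → Bool) → (Fin N → Bool) → (Fin n → Bool) → ℝ

variable {N n : ℕ}

/-- the mean over uniform `X`, `y`, `x` of `P ^ 2` -/
noncomputable def secondMoment (P : Pred N n) : ℝ :=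
  (∑ X, ∑ y, ∑ x, P X y x ^ 2) / (2 ^ (N * n) * 2 ^ N * 2 ^ n)

/-- the mean over uniform `X` and `x` of `F X x` -/
noncomputable def meanE (F : (Fin N → Fin n → Bool) → (Fin n → Bool) → ℝ) : ℝ :=
  (∑ X, ∑ x, F X x) / (2 ^ (N * n) * 2 ^ n)

/-- the correlation of the predictor with the target `f`, if the examples are labelled by `f` -/
noncomputable def adv (P : Pred N n) (f : (Fin n → Bool) → Bool) : ℝ :=
  meanE fun X x => P X (fun i => f (X i)) x * sgn (f x)

/-- the test functions -/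
noncomputable def psi (S : Finset (Fin n)) (T : Finset (Fin N)) : Pred N n := fun X y x =>
  (∏ i ∈ T, sgn (y i)) * (∏ i ∈ T, ∏ j ∈ S, sgn (X i j)) * ∏ j ∈ S, sgn (x j)

/-- `P` is orthogonal to the test functions with more than `t` labels -/
def Ort (t k : ℕ) (P : Pred N n) : Prop := ∀ S : Finset (Fin n), S.card = k →
  ∀ T : Finset (Fin N), t < T.card → ∑ X, ∑ y, ∑ x, P X y x * psi S T X y x = 0

theorem psi_mul {S S' : Finset (Fin n)} {T T' : Finset (Fin N)} :
    ∑ X, ∑ y, ∑ x, psi S T X y x * psi S' T' X y x =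
      if S = S' ∧ T = T' then (2 : ℝ) ^ (N * n) * 2 ^ N * 2 ^ n else 0 := by
  classical
  have h1 : ∀ (X : Fin N → Fin n → Bool), ∑ y, ∑ x, psi S T X y x * psi S' T' X y x =
      ((∏ i ∈ T, ∏ j ∈ S, sgn (X i j)) * ∏ i ∈ T', ∏ j ∈ S', sgn (X i j)) *
        ((if T = T' then (2 : ℝ) ^ N else 0) * if S = S' then 2 ^ n else 0) := by
    intro X
    have e1 := sum_chi T T'
    have e2 := sum_chi S S'
    rw [Fintype.card_fin] at e1 e2
    rw [← e1, ← e2, Finset.sum_mul_sum, Finset.mul_sum]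
    refine sum_congr rfl fun y _ => ?_
    rw [Finset.mul_sum]
    refine sum_congr rfl fun x _ => ?_
    unfold psi
    ring
  rw [sum_congr rfl (fun X _ => h1 X), ← Finset.sum_mul]
  by_cases hS : S = S'
  · by_cases hT : T = T'
    · subst hS hT
      rw [if_pos rfl, if_pos rfl, if_pos ⟨rfl, rfl⟩]
      have h2 : ∀ X : Fin N → Fin n → Bool,
          (∏ i ∈ T, ∏ j ∈ S, sgn (X i j)) * ∏ i ∈ T, ∏ j ∈ S, sgn (X i j) = 1 := by
        intro X
        rw [← prod_mul_distrib]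
        refine prod_eq_one fun i _ => ?_
        rw [← prod_mul_distrib]
        exact prod_eq_one fun j _ => sgn_sq _
      rw [sum_congr rfl (fun X _ => h2 X), sum_const, card_univ, Fintype.card_fun,
        Fintype.card_fun, Fintype.card_bool, Fintype.card_fin, Fintype.card_fin, nsmul_eq_mul,
        mul_one]
      push_cast
      rw [← pow_mul, mul_comm n N]
      ring
    · rw [if_neg hT, if_neg (show ¬ (S = S' ∧ T = T') from fun h => hT h.2)]
      ring
  · rw [if_neg hS, if_neg (show ¬ (S = S' ∧ T = T') from fun h => hS h.1)]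
    ring

/-- the value of a predictor for examples labelled by a parity, as a mean over all labels -/
theorem at_labels (P : Pred N n) (S : Finset (Fin n)) :
    ∑ X, ∑ x, P X (fun i => par S (X i)) x * sgn (par S x) =
      (∑ T : Finset (Fin N), ∑ X, ∑ y, ∑ x, P X y x * psi S T X y x) / 2 ^ N := by
  classical
  have h2 : (2 : ℝ) ^ N ≠ 0 := by positivity
  rw [eq_div_iff h2]
  have h1 : ∀ (X : Fin N → Fin n → Bool) (x : Fin n → Bool),
      P X (fun i => par S (X i)) x * sgn (par S x) * 2 ^ N =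
        ∑ T : Finset (Fin N), ∑ y, P X y x * psi S T X y x := by
    intro X x
    rw [sum_comm]
    have h3 : ∀ y : Fin N → Bool, ∑ T : Finset (Fin N), P X y x * psi S T X y x =
        if y = (fun i => par S (X i)) then P X y x * (∏ j ∈ S, sgn (x j)) * 2 ^ N else 0 := by
      intro y
      have h4 := complete (fun i => par S (X i)) y
      rw [Fintype.card_fin] at h4
      have h5 : ∀ T : Finset (Fin N), P X y x * psi S T X y x =
          P X y x * (∏ j ∈ S, sgn (x j)) *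
            ((∏ v ∈ T, sgn (y v)) * ∏ v ∈ T, sgn (par S (X v))) := by
        intro T
        unfold psi
        rw [prod_congr rfl (fun v _ => sgn_par S (X v))]
        ring
      rw [sum_congr rfl (fun T _ => h5 T), ← Finset.mul_sum, h4]
      split_ifs <;> ring
    rw [sum_congr rfl (fun y _ => h3 y), sum_ite_eq' univ, if_pos (mem_univ _), sgn_par]
  rw [Finset.sum_mul]
  have h3 : ∀ X : Fin N → Fin n → Bool,
      (∑ x, P X (fun i => par S (X i)) x * sgn (par S x)) * 2 ^ N =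
        ∑ T : Finset (Fin N), ∑ y, ∑ x, P X y x * psi S T X y x := by
    intro X
    rw [Finset.sum_mul, sum_congr rfl (fun x _ => h1 X x), sum_comm]
    exact sum_congr rfl fun T _ => sum_comm
  rw [sum_congr rfl (fun X _ => h3 X), sum_comm]

/-- Bessel's inequality -/
theorem bessel {Ω I : Type} [Fintype Ω] (A : Finset I) (p : Ω → ℝ) (v : I → Ω → ℝ) (c : ℝ)
    (hc : 0 < c) (h0 : ∀ i ∈ A, ∀ j ∈ A, i ≠ j → ∑ ω, v i ω * v j ω = 0)
    (h1 : ∀ i ∈ A, ∑ ω, v i ω * v i ω = c) :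
    ∑ i ∈ A, (∑ ω, p ω * v i ω) ^ 2 ≤ c * ∑ ω, p ω ^ 2 := by
  classical
  obtain ⟨a, ha⟩ : ∃ a : I → ℝ, a = fun i => ∑ ω, p ω * v i ω := ⟨_, rfl⟩
  have h2 : 0 ≤ ∑ ω, (p ω - ∑ i ∈ A, a i / c * v i ω) ^ 2 := sum_nonneg fun ω _ => sq_nonneg _
  have h3 : ∑ ω, (p ω - ∑ i ∈ A, a i / c * v i ω) ^ 2 =
      ∑ ω, p ω ^ 2 - (∑ i ∈ A, a i ^ 2) / c := by
    have e1 : ∀ ω, (p ω - ∑ i ∈ A, a i / c * v i ω) ^ 2 =
        p ω ^ 2 - 2 * ∑ i ∈ A, a i / c * (p ω * v i ω) +
          ∑ i ∈ A, ∑ j ∈ A, a i / c * (a j / c) * (v i ω * v j ω) := by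
      intro ω
      have e2 : (∑ i ∈ A, a i / c * v i ω) ^ 2 =
          ∑ i ∈ A, ∑ j ∈ A, a i / c * (a j / c) * (v i ω * v j ω) := by
        rw [pow_two, Finset.sum_mul_sum]
        exact sum_congr rfl fun i _ => sum_congr rfl fun j _ => by ring
      have e3 : p ω * ∑ i ∈ A, a i / c * v i ω = ∑ i ∈ A, a i / c * (p ω * v i ω) := by
        rw [Finset.mul_sum]
        exact sum_congr rfl fun i _ => by ring
      rw [sub_sq, e2, ← e3]
      ring
    rw [sum_congr rfl (fun ω _ => e1 ω), sum_add_distrib, sum_sub_distrib, ← Finset.mul_sum]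
    have e4 : ∑ ω, ∑ i ∈ A, a i / c * (p ω * v i ω) = (∑ i ∈ A, a i ^ 2) / c := by
      rw [sum_comm, Finset.sum_div]
      refine sum_congr rfl fun i _ => ?_
      rw [← Finset.mul_sum]
      have : ∑ ω, p ω * v i ω = a i := by rw [ha]
      rw [this]
      ring
    have e5 : ∑ ω, ∑ i ∈ A, ∑ j ∈ A, a i / c * (a j / c) * (v i ω * v j ω) =
        (∑ i ∈ A, a i ^ 2) / c := by
      rw [sum_comm, Finset.sum_div]
      refine sum_congr rfl fun i hi => ?_
      rw [sum_comm, sum_eq_single_of_mem i hi]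
      · rw [← Finset.mul_sum, h1 i hi]
        field_simp
      · intro j hj hji
        rw [← Finset.mul_sum, h0 i hi j hj (Ne.symm hji), mul_zero]
    rw [e4, e5]
    ring
  rw [h3] at h2
  have h4 : (∑ i ∈ A, a i ^ 2) / c ≤ ∑ ω, p ω ^ 2 := by linarith
  rw [div_le_iff₀ hc] at h4
  rw [ha] at h4
  linarith

/-- The main inequality. -/
theorem main {t k : ℕ} {P : Pred N n} (hP : Ort t k P) :
    ∑ S ∈ univ.powersetCard k, adv P (par S) ^ 2 ≤
      secondMoment P * ∑ j ∈ range (t + 1), (N.choose j : ℝ) := by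
  classical
  obtain ⟨𝒯, h𝒯⟩ : ∃ 𝒯 : Finset (Finset (Fin N)), 𝒯 = univ.filter fun T => T.card ≤ t :=
    ⟨_, rfl⟩
  obtain ⟨w, hw⟩ : ∃ w : ℝ, w = 2 ^ (N * n) * 2 ^ N * 2 ^ n := ⟨_, rfl⟩
  have hw0 : 0 < w := by rw [hw]; positivity
  have hcard : (𝒯.card : ℝ) = ∑ j ∈ range (t + 1), (N.choose j : ℝ) := by
    have e : 𝒯 = (range (t + 1)).biUnion fun j => univ.powersetCard j := by
      ext T
      rw [h𝒯, mem_filter, mem_biUnion]
      constructor
      · rintro ⟨-, h⟩
        exact ⟨T.card, mem_range.2 (by omega), mem_powersetCard.2 ⟨subset_univ _, rfl⟩⟩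
      · rintro ⟨j, hj, hT⟩
        rw [mem_range] at hj
        have := (mem_powersetCard.1 hT).2
        exact ⟨mem_univ _, by omega⟩
    rw [e, card_biUnion]
    · push_cast
      refine sum_congr rfl fun j _ => ?_
      rw [card_powersetCard, card_univ, Fintype.card_fin]
    · intro i _ j _ hij
      exact disjoint_left.2 fun T hT hT' =>
        hij ((mem_powersetCard.1 hT).2.symm.trans (mem_powersetCard.1 hT').2)
  have hpos : (0 : ℝ) < 𝒯.card := by
    have : (∅ : Finset (Fin N)) ∈ 𝒯 := by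
      rw [h𝒯]
      simp
    exact_mod_cast card_pos.2 ⟨_, this⟩
  let Ω := (Fin N → Fin n → Bool) × (Fin N → Bool) × (Fin n → Bool)
  have hprod : ∀ F : Pred N n, ∑ X, ∑ y, ∑ x, F X y x = ∑ ω : Ω, F ω.1 ω.2.1 ω.2.2 := by
    intro F
    rw [Fintype.sum_prod_type]
    refine sum_congr rfl fun X _ => ?_
    rw [Fintype.sum_prod_type]
  have hB := bessel (Ω := Ω) (univ.powersetCard k : Finset (Finset (Fin n)))
    (fun ω => P ω.1 ω.2.1 ω.2.2) (fun S ω => ∑ T ∈ 𝒯, psi S T ω.1 ω.2.1 ω.2.2) (w * 𝒯.card)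
    (by positivity)
    (by
      intro S _ S' _ hSS
      have e : ∀ ω : Ω, (∑ T ∈ 𝒯, psi S T ω.1 ω.2.1 ω.2.2) * ∑ T ∈ 𝒯, psi S' T ω.1 ω.2.1 ω.2.2 =
          ∑ T ∈ 𝒯, ∑ T' ∈ 𝒯, psi S T ω.1 ω.2.1 ω.2.2 * psi S' T' ω.1 ω.2.1 ω.2.2 := by
        intro ω
        rw [Finset.sum_mul_sum]
      rw [sum_congr rfl (fun ω _ => e ω), sum_comm]
      refine sum_eq_zero fun T _ => ?_
      rw [sum_comm]
      refine sum_eq_zero fun T' _ => ?_
      rw [← hprod (fun X y x => psi S T X y x * psi S' T' X y x), psi_mul,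
        if_neg (fun h => hSS h.1)])
    (by
      intro S _
      have e : ∀ ω : Ω, (∑ T ∈ 𝒯, psi S T ω.1 ω.2.1 ω.2.2) * ∑ T ∈ 𝒯, psi S T ω.1 ω.2.1 ω.2.2 =
          ∑ T ∈ 𝒯, ∑ T' ∈ 𝒯, psi S T ω.1 ω.2.1 ω.2.2 * psi S T' ω.1 ω.2.1 ω.2.2 := by
        intro ω
        rw [Finset.sum_mul_sum]
      rw [sum_congr rfl (fun ω _ => e ω), sum_comm]
      have e2 : ∀ T ∈ 𝒯, ∑ ω : Ω, ∑ T' ∈ 𝒯, psi S T ω.1 ω.2.1 ω.2.2 * psi S T' ω.1 ω.2.1 ω.2.2 =
          w := by
        intro T hT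
        rw [sum_comm, sum_eq_single_of_mem T hT]
        · rw [← hprod (fun X y x => psi S T X y x * psi S T X y x), psi_mul, if_pos ⟨rfl, rfl⟩, hw]
        · intro T' _ hTT
          rw [← hprod (fun X y x => psi S T X y x * psi S T' X y x), psi_mul,
            if_neg (fun h => hTT h.2.symm)]
      rw [sum_congr rfl e2, sum_const, nsmul_eq_mul, mul_comm])
  have hadv : ∀ S ∈ (univ.powersetCard k : Finset (Finset (Fin n))),
      adv P (par S) = (∑ ω : Ω, P ω.1 ω.2.1 ω.2.2 * ∑ T ∈ 𝒯, psi S T ω.1 ω.2.1 ω.2.2) / w := by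
    intro S hS
    have hSk := (mem_powersetCard.1 hS).2
    unfold adv meanE
    rw [at_labels, div_div]
    have e1 : ∑ T : Finset (Fin N), ∑ X, ∑ y, ∑ x, P X y x * psi S T X y x =
        ∑ T ∈ 𝒯, ∑ X, ∑ y, ∑ x, P X y x * psi S T X y x := by
      rw [h𝒯, sum_filter]
      refine sum_congr rfl fun T _ => ?_
      split_ifs with hT
      · rfl
      · exact hP S hSk T (by omega)
    have e2 : ∑ ω : Ω, P ω.1 ω.2.1 ω.2.2 * ∑ T ∈ 𝒯, psi S T ω.1 ω.2.1 ω.2.2 =
        ∑ T ∈ 𝒯, ∑ X, ∑ y, ∑ x, P X y x * psi S T X y x := by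
      simp_rw [Finset.mul_sum]
      rw [sum_comm]
      exact sum_congr rfl fun T _ => (hprod (fun X y x => P X y x * psi S T X y x)).symm
    rw [e1, e2, hw]
    congr 1
    ring
  have hsm : secondMoment P = (∑ ω : Ω, P ω.1 ω.2.1 ω.2.2 ^ 2) / w := by
    unfold secondMoment
    rw [hprod (fun X y x => P X y x ^ 2), hw]
  rw [sum_congr rfl (fun S hS => by rw [hadv S hS, div_pow]), ← Finset.sum_div,
    div_le_iff₀ (by positivity)]
  refine hB.trans (le_of_eq ?_)
  rw [hsm, hcard]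
  field_simp

/-- Some parity is not predicted. -/
theorem exists_par {t k : ℕ} (hk : k ≤ n) {P : Pred N n} (hP : Ort t k P) :
    ∃ S : Finset (Fin n), S.card = k ∧ |adv P (par S)| ≤
      Real.sqrt (secondMoment P * (∑ j ∈ range (t + 1), (N.choose j : ℝ)) / n.choose k) := by
  classical
  have h := main hP
  have hc : (0 : ℝ) < n.choose k := by exact_mod_cast Nat.choose_pos hk
  obtain ⟨B, hB⟩ : ∃ B, B = secondMoment P * (∑ j ∈ range (t + 1), (N.choose j : ℝ)) / n.choose k :=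
    ⟨_, rfl⟩
  rw [← hB]
  by_contra hcon
  push Not at hcon
  have h1 : ∀ S ∈ (univ.powersetCard k : Finset (Finset (Fin n))), B < adv P (par S) ^ 2 := by
    intro S hS
    have h2 := hcon S (mem_powersetCard.1 hS).2
    rw [← sq_abs]
    exact (Real.sqrt_lt' (lt_of_le_of_lt (Real.sqrt_nonneg _) h2)).1 h2
  have hne : (univ.powersetCard k : Finset (Finset (Fin n))).Nonempty :=
    powersetCard_nonempty.2 (by rw [card_univ, Fintype.card_fin]; exact hk)
  have h2 := sum_lt_sum_of_nonempty hne h1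
  rw [sum_const, card_powersetCard, card_univ, Fintype.card_fin, nsmul_eq_mul, hB,
    mul_div_cancel₀ _ hc.ne'] at h2
  linarith

end Pool.Agent.Q330.DNF
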