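import Mathlib
import Pool.Agent.Q330.DNF.Low

/-!
# The asymptotic form
-/

set_option autoImplicit false

namespace Pool.Agent.Q330.DNF

open Finset Pool.Agent.TH440.LD

variable {N n : ℕ}

theorem meanE_mono {F G : (Fin N → Fin n → Bool) → (Fin n → Bool) → ℝ}
    (h : ∀ X x, F X x ≤ G X x) : meanE F ≤ meanE G := by
  unfold meanE
  refine div_le_div_of_nonneg_right ?_ (by positivity)
  exact sum_le_sum fun X _ => sum_le_sum fun x _ => h X x

theorem abs_adv_sub (P Q : Pred N n) (f : (Fin n → Bool) → Bool) :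
    |adv Q f| ≤ |adv P f| + meanE fun X x => |Q X (fun i => f (X i)) x - P X (fun i => f (X i)) x| := by
  have h1 : adv Q f - adv P f =
      meanE fun X x => (Q X (fun i => f (X i)) x - P X (fun i => f (X i)) x) * sgn (f x) := by
    unfold adv meanE
    rw [← sub_div, ← Finset.sum_sub_distrib]
    congr 1
    refine sum_congr rfl fun X _ => ?_
    rw [← Finset.sum_sub_distrib]
    exact sum_congr rfl fun x _ => by ring
  have h2 : |adv Q f - adv P f| ≤
      meanE fun X x => |Q X (fun i => f (X i)) x - P X (fun i => f (X i)) x| := by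
    rw [h1]
    unfold meanE
    rw [abs_div, abs_of_pos (show (0 : ℝ) < 2 ^ (N * n) * 2 ^ n by positivity)]
    refine div_le_div_of_nonneg_right ?_ (by positivity)
    refine (abs_sum_le_sum_abs _ _).trans (sum_le_sum fun X _ => ?_)
    refine (abs_sum_le_sum_abs _ _).trans (sum_le_sum fun x _ => ?_)
    rw [abs_mul, abs_sgn, mul_one]
  have h3 : |adv Q f| ≤ |adv P f| + |adv Q f - adv P f| := by
    have := abs_add_le (adv P f) (adv Q f - adv P f)
    rwa [add_sub_cancel] at this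
  linarith

theorem adv_congr (P : Pred N n) {f g : (Fin n → Bool) → Bool} (h : ∀ x, f x = g x) :
    adv P f = adv P g := by
  have : f = g := funext h
  rw [this]

theorem not_predicted {t k s : ℕ} (hk1 : 1 ≤ k) (hk : k ≤ n) (hs : 2 ^ (k - 1) ≤ s)
    {P : Pred N n} (hP : Ort t k P) (Q : Pred N n) (η : ℝ)
    (hQ : ∀ D : Formula s n, D.Width k → meanE (fun X x =>
      |Q X (fun i => D.eval (X i)) x - P X (fun i => D.eval (X i)) x|) ≤ η) :
    ∃ D : Formula s n, D.Width k ∧ |adv Q D.eval| ≤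
      η + Real.sqrt (secondMoment P * (∑ j ∈ range (t + 1), (N.choose j : ℝ)) / n.choose k) := by
  obtain ⟨S, hS, h1⟩ := exists_par hk hP
  obtain ⟨D, hD, h2⟩ := exists_formula (s := s) S (card_pos.1 (by omega)) (by rw [hS]; exact hs)
  rw [hS] at hD
  refine ⟨D, hD, ?_⟩
  have h3 := abs_adv_sub P Q D.eval
  have h4 : adv P D.eval = adv P (par S) := adv_congr P h2
  rw [h4] at h3
  have h5 := hQ D hD
  linarith

theorem sum_choose_le (N t : ℕ) : ∑ j ∈ range (t + 1), (N.choose j : ℝ) ≤ ((N : ℝ) + 1) ^ t := by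
  induction t with
  | zero => simp
  | succ t ih =>
    rw [sum_range_succ]
    have h1 : (N.choose (t + 1) : ℝ) ≤ (N : ℝ) ^ (t + 1) := by
      exact_mod_cast Nat.choose_le_pow N (t + 1)
    have h2 : (N : ℝ) ^ (t + 1) ≤ N * ((N : ℝ) + 1) ^ t := by
      rw [pow_succ, mul_comm]
      exact mul_le_mul_of_nonneg_left (pow_le_pow_left₀ (by positivity) (by linarith) t)
        (by positivity)
    rw [pow_succ]
    nlinarith

theorem pow_le_choose {n k : ℕ} (hk1 : 1 ≤ k) (hk : 2 * k ≤ n) :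
    ((n : ℝ) / (2 * k)) ^ k ≤ n.choose k := by
  have h1 : ((n + 1 - k : ℕ) : ℝ) ^ k ≤ k.factorial * n.choose k := by
    have := Nat.pow_sub_le_descFactorial n k
    rw [Nat.descFactorial_eq_factorial_mul_choose] at this
    exact_mod_cast this
  have h2 : (k.factorial : ℝ) ≤ (k : ℝ) ^ k := by exact_mod_cast Nat.factorial_le_pow k
  have hk0 : (0 : ℝ) < k := by exact_mod_cast hk1
  have h3 : ((n + 1 - k : ℕ) : ℝ) = n + 1 - k := by
    rw [Nat.cast_sub (by omega)]
    push_cast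
    ring
  have h4 : (n : ℝ) / 2 ≤ ((n + 1 - k : ℕ) : ℝ) := by
    rw [h3]
    have : (2 : ℝ) * k ≤ n := by exact_mod_cast hk
    linarith
  have h5 : ((n : ℝ) / 2) ^ k ≤ (k : ℝ) ^ k * n.choose k := by
    calc ((n : ℝ) / 2) ^ k ≤ ((n + 1 - k : ℕ) : ℝ) ^ k :=
          pow_le_pow_left₀ (by positivity) h4 k
      _ ≤ k.factorial * n.choose k := h1
      _ ≤ (k : ℝ) ^ k * n.choose k := mul_le_mul_of_nonneg_right h2 (by positivity)
  have e : (n : ℝ) / (2 * k) = (n / 2) / k := by field_simp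
  rw [e, div_pow, div_le_iff₀ (by positivity), mul_comm]
  exact h5

/-- the numerical estimate -/
theorem numeric (C : ℕ) : ∃ c : ℝ, 0 < c ∧ ∃ n₀ : ℕ, ∀ n : ℕ, n₀ ≤ n → ∀ N t : ℕ, N ≤ n ^ C →
    (t : ℝ) ≤ c * Real.log n → ∀ M : ℝ, 0 ≤ M → M ≤ (n : ℝ) ^ C →
    2 * (Nat.log 2 n + 1) ≤ n ∧ Real.log n ≤ ((Nat.log 2 n + 1 : ℕ) : ℝ) ∧
    Real.sqrt (M * (∑ j ∈ range (t + 1), (N.choose j : ℝ)) / n.choose (Nat.log 2 n + 1)) ≤
      Real.exp (-(Real.log n) ^ 2 / 3) := by
  have hlim : ∀ᶠ n : ℕ in Filter.atTop, 2 * ((Nat.log 2 n + 1 : ℕ) : ℝ) ≤ (n : ℝ) ^ (1 / 10 : ℝ) := by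
    have h1 : (fun x : ℝ => Real.log x) =o[Filter.atTop] fun x : ℝ => x ^ (1 / 10 : ℝ) :=
      isLittleO_log_rpow_atTop (by norm_num)
    have h2 := (h1.comp_tendsto tendsto_natCast_atTop_atTop).bound (show (0 : ℝ) < 1 / 10 by norm_num)
    have h3 : ∀ᶠ n : ℕ in Filter.atTop, (10 : ℝ) ≤ (n : ℝ) ^ (1 / 10 : ℝ) :=
      ((tendsto_rpow_atTop (by norm_num : (0 : ℝ) < 1 / 10)).comp
        tendsto_natCast_atTop_atTop).eventually_ge_atTop 10
    filter_upwards [h2, h3, Filter.eventually_ge_atTop 1] with n h2 h3 h4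
    have hn : (1 : ℝ) ≤ n := by exact_mod_cast h4
    simp only [Function.comp] at h2
    rw [Real.norm_of_nonneg (Real.log_nonneg hn), Real.norm_of_nonneg (by positivity)] at h2
    have h5 : ((Nat.log 2 n : ℕ) : ℝ) ≤ Real.log n / Real.log 2 := by
      have := Real.natLog_le_logb n 2
      push_cast at this
      rw [Real.logb] at this
      exact this
    have h6 : Real.log n / Real.log 2 ≤ 2 * Real.log n := by
      rw [div_le_iff₀ (Real.log_pos (by norm_num))]
      have := Real.log_two_gt_d9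
      nlinarith [Real.log_nonneg hn]
    push_cast
    linarith
  have hlog : ∀ᶠ n : ℕ in Filter.atTop, (10 : ℝ) * (C + 1) ≤ Real.log n :=
    (Real.tendsto_log_atTop.comp tendsto_natCast_atTop_atTop).eventually_ge_atTop _
  obtain ⟨n₀, hn₀⟩ := Filter.eventually_atTop.1
    ((hlim.and hlog).and (Filter.eventually_ge_atTop 2))
  refine ⟨1 / (10 * (C + 1)), by positivity, n₀, ?_⟩
  intro n hn N t hN ht M hM0 hM
  obtain ⟨⟨h1, h2⟩, h3⟩ := hn₀ n hn
  have hn2 : (2 : ℝ) ≤ n := by exact_mod_cast h3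
  have hn0 : (0 : ℝ) < n := by linarith
  obtain ⟨l, hl⟩ : ∃ l, l = Real.log n := ⟨_, rfl⟩
  obtain ⟨k, hk⟩ : ∃ k, k = Nat.log 2 n + 1 := ⟨_, rfl⟩
  rw [← hl] at h2 ht ⊢
  rw [← hk] at h1 ⊢
  have hC0 : (0 : ℝ) ≤ C := by positivity
  have hl10 : (10 : ℝ) ≤ l := by nlinarith
  have hk1 : 1 ≤ k := by omega
  have hk0 : (0 : ℝ) < k := by exact_mod_cast hk1
  have hkn : 2 * k ≤ n := by
    have : (n : ℝ) ^ (1 / 10 : ℝ) ≤ n := by
      calc (n : ℝ) ^ (1 / 10 : ℝ) ≤ (n : ℝ) ^ (1 : ℝ) :=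
            Real.rpow_le_rpow_of_exponent_le (by linarith) (by norm_num)
        _ = n := Real.rpow_one _
    exact_mod_cast h1.trans this
  have hlk : l ≤ k := by
    have h4 : n < 2 ^ k := by
      rw [hk]
      exact Nat.lt_pow_succ_log_self (by norm_num) n
    have h5 : (n : ℝ) < 2 ^ k := by exact_mod_cast h4
    have h6 := Real.log_le_log hn0 h5.le
    rw [Real.log_pow, ← hl] at h6
    have := Real.log_two_lt_d9
    nlinarith
  refine ⟨hkn, hlk, ?_⟩
  have hexp : (n : ℝ) = Real.exp l := by rw [hl, Real.exp_log hn0]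
  -- the binomial coefficient
  have hch : Real.exp (9 / 10 * l ^ 2) ≤ n.choose k := by
    refine le_trans ?_ (pow_le_choose hk1 hkn)
    have h4 : Real.exp (9 / 10 * l) ≤ (n : ℝ) / (2 * k) := by
      rw [le_div_iff₀ (by positivity)]
      calc Real.exp (9 / 10 * l) * (2 * k) ≤ Real.exp (9 / 10 * l) * (n : ℝ) ^ (1 / 10 : ℝ) :=
            mul_le_mul_of_nonneg_left h1 (Real.exp_pos _).le
        _ = n := by
            rw [Real.rpow_def_of_pos hn0, ← hl, ← Real.exp_add, hexp]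
            congr 1
            ring
    calc Real.exp (9 / 10 * l ^ 2) ≤ Real.exp (k * (9 / 10 * l)) := by
          apply Real.exp_le_exp.2
          nlinarith
      _ = Real.exp (9 / 10 * l) ^ k := by rw [Real.exp_nat_mul]
      _ ≤ _ := pow_le_pow_left₀ (Real.exp_pos _).le h4 k
  -- the sum
  have hsum : ∑ j ∈ range (t + 1), (N.choose j : ℝ) ≤ Real.exp (1 / 10 * l ^ 2) := by
    refine (sum_choose_le N t).trans ?_
    have h4 : (N : ℝ) + 1 ≤ Real.exp ((C + 1) * l) := by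
      have h5 : (N : ℝ) ≤ (n : ℝ) ^ C := by exact_mod_cast hN
      have h6 : (1 : ℝ) ≤ (n : ℝ) ^ C := one_le_pow₀ (by linarith)
      calc (N : ℝ) + 1 ≤ 2 * (n : ℝ) ^ C := by linarith
        _ ≤ n * (n : ℝ) ^ C := mul_le_mul_of_nonneg_right hn2 (by positivity)
        _ = Real.exp ((C + 1) * l) := by
            rw [hexp, ← Real.exp_nat_mul, ← Real.exp_add]
            congr 1
            ring
    calc ((N : ℝ) + 1) ^ t ≤ Real.exp ((C + 1) * l) ^ t :=
          pow_le_pow_left₀ (by positivity) h4 t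
      _ = Real.exp (t * ((C + 1) * l)) := by rw [Real.exp_nat_mul]
      _ ≤ _ := by
          apply Real.exp_le_exp.2
          have h7 : (t : ℝ) * (10 * (C + 1)) ≤ l := by
            have h8 : 1 / (10 * ((C : ℝ) + 1)) * l * (10 * (C + 1)) = l := by field_simp
            calc (t : ℝ) * (10 * (C + 1)) ≤ 1 / (10 * ((C : ℝ) + 1)) * l * (10 * (C + 1)) :=
                  mul_le_mul_of_nonneg_right ht (by positivity)
              _ = l := h8
          nlinarith
  have hMl : M ≤ Real.exp (1 / 10 * l ^ 2) := by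
    refine hM.trans ?_
    rw [hexp, ← Real.exp_nat_mul]
    apply Real.exp_le_exp.2
    nlinarith
  rw [Real.sqrt_le_left (Real.exp_pos _).le]
  have hch0 : (0 : ℝ) < n.choose k := lt_of_lt_of_le (Real.exp_pos _) hch
  rw [div_le_iff₀ hch0]
  have hs0 : 0 ≤ ∑ j ∈ range (t + 1), (N.choose j : ℝ) := by positivity
  calc M * ∑ j ∈ range (t + 1), (N.choose j : ℝ) ≤
        Real.exp (1 / 10 * l ^ 2) * Real.exp (1 / 10 * l ^ 2) :=
        mul_le_mul hMl hsum hs0 (Real.exp_pos _).le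
    _ = Real.exp (1 / 5 * l ^ 2) := by
        rw [← Real.exp_add]
        congr 1
        ring
    _ ≤ Real.exp (-l ^ 2 / 3) ^ 2 * Real.exp (9 / 10 * l ^ 2) := by
        rw [← Real.exp_nat_mul, ← Real.exp_add]
        apply Real.exp_le_exp.2
        push_cast
        nlinarith [sq_nonneg l]
    _ ≤ _ := mul_le_mul_of_nonneg_left hch (by positivity)

end Pool.Agent.Q330.DNF
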