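import Mathlib
import Pool.Agent.Q330.DNF.Chi
import Pool.Agent.Q330.DNF.Asym
import Pool.Agent.TH689.QXJunta

/-!
# Convex programs for DNF formulas
-/

set_option autoImplicit false

namespace Pool.Agent.Q330.DNF

open Finset Pool.Agent.TH689.GX Pool.Agent.TH689.QX

variable {X X' 𝒞 : Type} {a s r D T : ℕ}

/-- the scheme for a subset of the hypotheses -/
def comapS (P : Scheme X 𝒞 a s r D) (ι : X' → X) : Scheme X' 𝒞 a s r D where
  d := P.d
  space := P.space
  bin := P.bin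
  map := P.map
  set := P.set
  set_convex := P.set_convex
  locMap := P.locMap
  locSet := P.locSet
  locSet_convex := P.locSet_convex
  point := fun x => P.point (ι x)

theorem correct_comap (P : Scheme X 𝒞 a s r D) (ι : X' → X) {Viol : 𝒞 → X → Prop}
    {Viol' : 𝒞 → X' → Prop} (h : ∀ C x, Viol' C x ↔ Viol C (ι x)) (x : X') :
    (comapS P ι).CorrectAt Viol' x ↔ P.CorrectAt Viol (ι x) := by
  unfold Scheme.CorrectAt comapS
  simp only [h]

theorem near_comap (P : Scheme X 𝒞 a s r D) (ι : X' → X) {Viol : 𝒞 → X → Prop}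
    {Viol' : 𝒞 → X' → Prop} (h : ∀ C x, Viol' C x ↔ Viol C (ι x)) (C : 𝒞) (i : Fin r) (δ : ℝ)
    (u : Fin P.d → ℝ) (hu : (comapS P ι).Near Viol' C i δ u) : P.Near Viol C i δ u := by
  obtain ⟨θ, h0, h1, p, hp, b, hb, he⟩ := hu
  refine ⟨θ, h0, h1, p, hp, b, ?_, he⟩
  refine convexHull_mono ?_ hb
  rintro _ ⟨x, hx, rfl⟩
  exact ⟨ι x, (correct_comap P ι h x).1 hx, rfl⟩

theorem rejects_comap (P : Scheme X 𝒞 a s r D) (ι : X' → X) {Viol : 𝒞 → X → Prop}
    {Viol' : 𝒞 → X' → Prop} (h : ∀ C x, Viol' C x ↔ Viol C (ι x)) (y : Fin T → 𝒞) (δ : ℝ)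
    (hy : Rejects P Viol y δ) : Rejects (comapS P ι) Viol' y δ := by
  have hfit : ∀ u : Fin P.d → ℝ, Fits (comapS P ι) Viol' y δ u → Fits P Viol y δ u := by
    rintro u ⟨h1, h2, h3, h4⟩
    exact ⟨h1, h2, h3, fun t i => near_comap P ι h (y t) i δ u (h4 t i)⟩
  rcases hy with hy | ⟨f, hf1, hf2⟩
  · exact Or.inl fun u hu => hy u (hfit u hu)
  · refine Or.inr ⟨f, fun x hx => ?_, fun u hu => hf2 u (hfit u hu)⟩
    have h1 := hf1 (ι x) ((correct_comap P ι h x).1 hx)
    have h2 : errors Viol' y x = errors Viol y (ι x) := by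
      classical
      unfold errors
      congr 1
      ext t
      rw [mem_filter, mem_filter, h]
    rw [h2]
    exact h1

theorem rate_comap [Finite 𝒞] (P : Scheme X 𝒞 a s r D) (ι : X' → X) {Viol : 𝒞 → X → Prop}
    {Viol' : 𝒞 → X' → Prop} (h : ∀ C x, Viol' C x ↔ Viol C (ι x)) (δ : ℝ) :
    rejectRate P Viol T δ ≤ rejectRate (comapS P ι) Viol' T δ := by
  unfold rejectRate
  refine div_le_div_of_nonneg_right ?_ (by positivity)
  have h1 : {y : Fin T → 𝒞 | Rejects P Viol y δ} ⊆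
      {y : Fin T → 𝒞 | Rejects (comapS P ι) Viol' y δ} :=
    fun y hy => rejects_comap P ι h y δ hy
  exact_mod_cast Set.ncard_le_ncard h1 (Set.toFinite _)

/-! ### parities -/

/-- the sets of `k` variables -/
abbrev KSet (n k : ℕ) := {S : Finset (Fin n) // S.card = k}

theorem sg_eq (b : Bool) : sg b = -Pool.Agent.TH440.LD.sgn b := by
  cases b <;> simp [sg, Pool.Agent.TH440.LD.sgn]

theorem card_kset (n k : ℕ) : Fintype.card (KSet n k) = n.choose k := by
  classical
  rw [Fintype.card_subtype]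
  have : (univ.filter fun S : Finset (Fin n) => S.card = k) = univ.powersetCard k := by
    ext S
    rw [mem_filter, mem_powersetCard]
    exact ⟨fun h => ⟨subset_univ _, h.2⟩, fun h => ⟨mem_univ _, h.2⟩⟩
  rw [this, card_powersetCard, card_univ, Fintype.card_fin]

theorem twist_par {n k : ℕ} (hk : k ≤ n) :
    Twist (Wrong fun (S : KSet n k) (z : Fin n → Bool) => par S.1 z)
      (sgn (Wrong fun (S : KSet n k) (z : Fin n → Bool) => par S.1 z))
      (1 / (n.choose k : ℝ)) := by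
  classical
  have hc : (0 : ℝ) < n.choose k := by exact_mod_cast Nat.choose_pos hk
  refine twist_learn _ (by positivity) fun S => ?_
  have h1 : ∀ S' : KSet n k, |∑ z : Fin n → Bool, sg (par S.1 z) * sg (par S'.1 z)| =
      if S' = S then (2 : ℝ) ^ n else 0 := by
    intro S'
    have e : ∀ z : Fin n → Bool, sg (par S.1 z) * sg (par S'.1 z) =
        (∏ i ∈ S.1, Pool.Agent.TH440.LD.sgn (z i)) * ∏ i ∈ S'.1, Pool.Agent.TH440.LD.sgn (z i) := by
      intro z
      rw [sg_eq, sg_eq, sgn_par, sgn_par]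
      ring
    rw [sum_congr rfl (fun z _ => e z), sum_chi, Fintype.card_fin]
    by_cases h : S' = S
    · subst h
      rw [if_pos rfl, if_pos rfl, abs_of_pos (by positivity)]
    · rw [if_neg h, if_neg (fun h' => h (Subtype.ext h'.symm)), abs_zero]
  rw [sum_congr rfl (fun S' _ => h1 S'), sum_ite_eq' univ, if_pos (mem_univ _), card_kset,
    Fintype.card_fun, Fintype.card_bool, Fintype.card_fin]
  push_cast
  rw [div_mul_eq_mul_div, one_mul, div_mul_cancel₀ _ hc.ne']

theorem correct_ge {n k m : ℕ} (hk : k ≤ n)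
    (F : KSet n k → Formula m n) (hFw : ∀ S, (F S).Width k)
    (hF : ∀ S x, (F S).eval x = par S.1 x) {T : ℕ} (hT : 1 ≤ T) {δ : ℝ} (hδ0 : 0 < δ) (hδ1 : δ < 1)
    (Ω : Type) [Fintype Ω] (p : Ω → ℝ) (hp : ∀ ω, 0 ≤ p ω) (hp1 : ∑ ω, p ω = 1)
    (a s r D : Ω → ℕ) (M : ℝ)
    (hM : ∀ ω, (2 : ℝ) ^ a ω * (s ω + (r ω + 1) * T + 1) * (D ω + 2) ≤ M)
    (P : ∀ ω, Scheme (Formula m n) ((Fin n → Bool) × Bool) (a ω) (s ω) (r ω) (D ω)) (α β : ℝ)
    (hα : ∀ E : Formula m n, E.Width k →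
      α ≤ ∑ ω, p ω * Set.indicator {E' | (P ω).CorrectAt (Wrong Formula.eval) E'} 1 E)
    (hβ : β ≤ ∑ ω, p ω * rejectRate (P ω) (Wrong Formula.eval) T δ) :
    α + β - 1 ≤ 2 * T ^ 3 * M / (n.choose k * δ ^ 2) := by
  classical
  have hc : (0 : ℝ) < n.choose k := by exact_mod_cast Nat.choose_pos hk
  have hne : Nonempty (KSet n k) := by
    rw [← Fintype.card_pos_iff, card_kset]
    exact Nat.choose_pos hk
  obtain ⟨h, hh⟩ : ∃ h : KSet n k → (Fin n → Bool) → Bool, h = fun S z => par S.1 z := ⟨_, rfl⟩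
  have hV : ∀ (C : (Fin n → Bool) × Bool) (S : KSet n k),
      Wrong h C S ↔ Wrong Formula.eval C (F S) := by
    intro C S
    unfold Wrong
    rw [hF, hh]
  have htw := twist_par (n := n) (k := k) hk
  rw [← hh] at htw
  have h1 := learn_random (Wrong h) htw hT hδ0 hδ1 Ω p hp hp1 a s r D M hM
    (fun ω => comapS (P ω) F)
  -- the correct rates
  obtain ⟨c, hcdef⟩ : ∃ c : Ω → ℝ, c = fun ω => (comapS (P ω) F).correctRate (Wrong h) := ⟨_, rfl⟩
  obtain ⟨ρ, hρdef⟩ : ∃ ρ : Ω → ℝ, ρ = fun ω => rejectRate (comapS (P ω) F) (Wrong h) T δ :=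
    ⟨_, rfl⟩
  have hc1 : ∀ ω, c ω ≤ 1 := by
    intro ω
    rw [hcdef]
    unfold Scheme.correctRate
    refine div_le_one_of_le₀ ?_ (by positivity)
    rw [← Set.ncard_univ]
    exact_mod_cast Set.ncard_le_ncard (Set.subset_univ _) (Set.toFinite _)
  have hρ1 : ∀ ω, ρ ω ≤ 1 := by
    intro ω
    rw [hρdef]
    unfold rejectRate
    refine div_le_one_of_le₀ ?_ (by positivity)
    rw [← Set.ncard_univ]
    exact_mod_cast Set.ncard_le_ncard (Set.subset_univ _) (Set.toFinite _)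
  have hcsum : α ≤ ∑ ω, p ω * c ω := by
    have h2 : ∀ ω, c ω = (∑ S : KSet n k,
        Set.indicator {E' | (P ω).CorrectAt (Wrong Formula.eval) E'} (1 : Formula m n → ℝ) (F S)) /
          n.choose k := by
      intro ω
      rw [hcdef]
      show (comapS (P ω) F).correctRate (Wrong h) = _
      unfold Scheme.correctRate
      rw [Nat.card_eq_fintype_card, card_kset]
      congr 1
      have e : {S : KSet n k | (comapS (P ω) F).CorrectAt (Wrong h) S} =
          ((univ.filter fun S : KSet n k => (P ω).CorrectAt (Wrong Formula.eval) (F S) :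
            Finset (KSet n k)) : Set (KSet n k)) := by
        ext S
        rw [mem_coe, mem_filter]
        show (comapS (P ω) F).CorrectAt (Wrong h) S ↔ _
        rw [correct_comap (P ω) F hV S]
        exact ⟨fun hx => ⟨mem_univ _, hx⟩, fun hx => hx.2⟩
      rw [e, Set.ncard_coe_finset, card_filter]
      push_cast
      refine sum_congr rfl fun S _ => ?_
      simp only [Set.indicator, Set.mem_ofPred_eq, Pi.one_apply]
    have h3 : ∑ ω, p ω * c ω = (∑ S : KSet n k, ∑ ω, p ω *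
        Set.indicator {E' | (P ω).CorrectAt (Wrong Formula.eval) E'} (1 : Formula m n → ℝ) (F S)) /
          n.choose k := by
      rw [sum_comm, Finset.sum_div]
      refine sum_congr rfl fun ω _ => ?_
      rw [h2, ← Finset.mul_sum, mul_div_assoc]
    rw [h3, le_div_iff₀ hc]
    calc α * n.choose k = ∑ _S : KSet n k, α := by
          rw [sum_const, card_univ, card_kset, nsmul_eq_mul, mul_comm]
      _ ≤ _ := sum_le_sum fun S _ => hα (F S) (hFw S)
  have hρsum : β ≤ ∑ ω, p ω * ρ ω := by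
    refine hβ.trans (sum_le_sum fun ω _ => mul_le_mul_of_nonneg_left ?_ (hp ω))
    rw [hρdef]
    exact rate_comap (P ω) F hV δ
  have h4 : α + β - 1 ≤ ∑ ω, p ω * (c ω * ρ ω) := by
    calc α + β - 1 ≤ ∑ ω, p ω * c ω + ∑ ω, p ω * ρ ω - ∑ ω, p ω := by
          rw [hp1]
          linarith
      _ = ∑ ω, p ω * (c ω + ρ ω - 1) := by
          rw [← sum_add_distrib, ← sum_sub_distrib]
          exact sum_congr rfl fun ω _ => by ring
      _ ≤ _ := by
          refine sum_le_sum fun ω _ => mul_le_mul_of_nonneg_left ?_ (hp ω)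
          nlinarith [hc1 ω, hρ1 ω]
  have h5 : ∑ ω, p ω * (c ω * ρ ω) ≤ 2 * (T : ℝ) ^ 3 * (1 / (n.choose k : ℝ)) / δ ^ 2 * M := by
    rw [hcdef, hρdef]
    exact h1
  refine h4.trans (h5.trans (le_of_eq ?_))
  field_simp

/-- a lower bound for the binomial coefficient -/
theorem choose_large : ∃ n₀ : ℕ, ∀ n : ℕ, n₀ ≤ n → 2 * (Nat.log 2 n + 1) ≤ n ∧
    Real.exp (2 / 3 * (Real.log n) ^ 2) ≤ n.choose (Nat.log 2 n + 1) := by
  obtain ⟨c, hc, n₀, h⟩ := numeric 0
  refine ⟨max n₀ 1, fun n hn => ?_⟩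
  have hn1 : 1 ≤ n := (le_max_right _ _).trans hn
  have hlog : 0 ≤ Real.log n := Real.log_nonneg (by exact_mod_cast hn1)
  have hh := h n ((le_max_left _ _).trans hn) 0 0 (by simp) (by
    push_cast
    positivity) 1 zero_le_one (by simp)
  obtain ⟨h1, -, h2⟩ := hh
  refine ⟨h1, ?_⟩
  have hc0 : (0 : ℝ) < n.choose (Nat.log 2 n + 1) := by
    exact_mod_cast Nat.choose_pos (by omega)
  simp only [zero_add, range_one, sum_singleton, Nat.choose_self, Nat.cast_one, mul_one] at h2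
  rw [Real.sqrt_le_left (Real.exp_pos _).le, ← Real.exp_nat_mul, div_le_iff₀ hc0] at h2
  have h3 := mul_le_mul_of_nonneg_left h2 (Real.exp_pos (2 / 3 * (Real.log n) ^ 2)).le
  rw [mul_one, ← mul_assoc, ← Real.exp_add] at h3
  refine h3.trans (le_of_eq ?_)
  have e : 2 / 3 * Real.log n ^ 2 + ((2 : ℕ) : ℝ) * (-Real.log n ^ 2 / 3) = 0 := by
    push_cast
    ring
  rw [e, Real.exp_zero, one_mul]

end Pool.Agent.Q330.DNF
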