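import Mathlib
import Pool.Agent.Q330.DNF.Low

/-!
# Predictors which are polynomials of low degree
-/

set_option autoImplicit false

namespace Pool.Agent.Q330.DNF

open Finset Pool.Agent.TH440.LD

variable {N n : ℕ}

/-- For all attribute vectors and every fresh point, `P` is a real polynomial of degree at most `d`
in the labels (with the values `1` and `-1`). -/
def DegLabels (d : ℕ) (P : Pred N n) : Prop := ∀ X x, ∃ Q : MvPolynomial (Fin N) ℝ,
  Q.totalDegree ≤ d ∧ ∀ y, P X y x = MvPolynomial.eval (fun i => sgn (y i)) Q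

/-- For every fresh point, `P` is a real polynomial of degree at most `D` in all bits of the examples
and their labels (with the values `1` and `-1`). -/
def DegBits (D : ℕ) (P : Pred N n) : Prop := ∀ x, ∃ Q : MvPolynomial (Fin N × Option (Fin n)) ℝ,
  Q.totalDegree ≤ D ∧
    ∀ X y, P X y x = MvPolynomial.eval (fun v => sgn (v.2.elim (y v.1) (X v.1))) Q

theorem ort_labels {d : ℕ} (k : ℕ) {P : Pred N n} (hP : DegLabels d P) : Ort d k P := by
  intro S _ T hT
  refine sum_eq_zero fun X _ => ?_
  rw [sum_comm]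
  refine sum_eq_zero fun x _ => ?_
  obtain ⟨Q, hQ, hPQ⟩ := hP X x
  have h1 := van Q hQ T hT
  have h2 : ∀ y, P X y x * psi S T X y x =
      MvPolynomial.eval (fun i => sgn (y i)) Q * (∏ v ∈ T, sgn (y v)) *
        ((∏ i ∈ T, ∏ j ∈ S, sgn (X i j)) * ∏ j ∈ S, sgn (x j)) := by
    intro y
    rw [hPQ]
    unfold psi
    ring
  rw [sum_congr rfl (fun y _ => h2 y), ← Finset.sum_mul, h1, zero_mul]

/-- the bits of the examples and the labels together -/
def joinEquiv (N n : ℕ) :
    ((Fin N → Fin n → Bool) × (Fin N → Bool)) ≃ (Fin N × Option (Fin n) → Bool) where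
  toFun := fun w v => v.2.elim (w.2 v.1) (w.1 v.1)
  invFun := fun b => (fun i j => b (i, some j), fun i => b (i, none))
  left_inv := fun _ => rfl
  right_inv := by
    intro b
    funext v
    obtain ⟨i, o⟩ := v
    cases o <;> rfl

theorem ort_bits {D : ℕ} (k : ℕ) {P : Pred N n} (hP : DegBits D P) : Ort (D / (k + 1)) k P := by
  classical
  intro S hS T hT
  have h0 : ∑ X, ∑ y, ∑ x, P X y x * psi S T X y x =
      ∑ x, ∑ w : (Fin N → Fin n → Bool) × (Fin N → Bool), P w.1 w.2 x * psi S T w.1 w.2 x := by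
    symm
    rw [sum_comm, Fintype.sum_prod_type]
  rw [h0]
  refine sum_eq_zero fun x _ => ?_
  obtain ⟨Q, hQ, hPQ⟩ := hP x
  obtain ⟨V, hV⟩ : ∃ V : Finset (Fin N × Option (Fin n)),
    V = T ×ˢ insert none (S.image some) := ⟨_, rfl⟩
  have hcard : V.card = T.card * (k + 1) := by
    rw [hV, card_product, card_insert_of_notMem, card_image_of_injective _ (Option.some_injective _),
      hS]
    simp
  have hVD : D < V.card := by
    rw [hcard]
    exact (Nat.div_lt_iff_lt_mul (by omega)).1 hT
  have h1 := van Q hQ V hVD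
  have h2 : ∀ w : (Fin N → Fin n → Bool) × (Fin N → Bool), P w.1 w.2 x * psi S T w.1 w.2 x =
      (fun b : Fin N × Option (Fin n) → Bool =>
        MvPolynomial.eval (fun v => sgn (b v)) Q * (∏ v ∈ V, sgn (b v))) (joinEquiv N n w) *
        ∏ j ∈ S, sgn (x j) := by
    intro w
    have h3 : ∏ v ∈ V, sgn (joinEquiv N n w v) =
        (∏ i ∈ T, sgn (w.2 i)) * ∏ i ∈ T, ∏ j ∈ S, sgn (w.1 i j) := by
      rw [hV, prod_product, ← prod_mul_distrib]
      refine prod_congr rfl fun i _ => ?_
      rw [prod_insert (by simp), prod_image (fun a _ b _ h => Option.some_injective _ h)]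
      rfl
    simp only
    rw [h3, hPQ]
    unfold psi
    have h4 : (fun v : Fin N × Option (Fin n) => sgn (v.2.elim (w.2 v.1) (w.1 v.1))) =
        fun v => sgn (joinEquiv N n w v) := rfl
    rw [h4]
    ring
  rw [sum_congr rfl (fun w _ => h2 w), ← Finset.sum_mul,
    Equiv.sum_comp (joinEquiv N n) (fun b : Fin N × Option (Fin n) → Bool =>
        MvPolynomial.eval (fun v => sgn (b v)) Q * (∏ v ∈ V, sgn (b v))), h1, zero_mul]

/-! ### the best predictor -/

/-- the sum of all test functions with `d` labels -/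
noncomputable def best (N n d k : ℕ) : Pred N n := fun X y x =>
  ∑ T ∈ univ.powersetCard d, ∑ S ∈ univ.powersetCard k, psi S T X y x

theorem best_labels (d k : ℕ) : DegLabels d (best N n d k) := by
  intro X x
  refine ⟨∑ T ∈ univ.powersetCard d, ∑ S ∈ univ.powersetCard k,
    MvPolynomial.C ((∏ i ∈ T, ∏ j ∈ S, sgn (X i j)) * ∏ j ∈ S, sgn (x j)) *
      ∏ i ∈ T, MvPolynomial.X i, ?_, ?_⟩
  · refine (MvPolynomial.totalDegree_finsetSum _ _).trans (Finset.sup_le fun T hT => ?_)
    refine (MvPolynomial.totalDegree_finsetSum _ _).trans (Finset.sup_le fun S _ => ?_)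
    refine (MvPolynomial.totalDegree_mul _ _).trans ?_
    rw [MvPolynomial.totalDegree_C, zero_add]
    refine (MvPolynomial.totalDegree_finsetProd _ _).trans ?_
    calc ∑ i ∈ T, (MvPolynomial.X i : MvPolynomial (Fin N) ℝ).totalDegree ≤ ∑ i ∈ T, 1 :=
          sum_le_sum fun i _ => (MvPolynomial.totalDegree_X i).le
      _ = d := by rw [sum_const, smul_eq_mul, mul_one, (mem_powersetCard.1 hT).2]
  · intro y
    simp only [map_sum, map_mul, map_prod, MvPolynomial.eval_C, MvPolynomial.eval_X]
    unfold best psi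
    refine sum_congr rfl fun T _ => sum_congr rfl fun S _ => ?_
    ring

theorem best_bits (d k : ℕ) : DegBits (d * (k + 1)) (best N n d k) := by
  intro x
  refine ⟨∑ T ∈ univ.powersetCard d, ∑ S ∈ univ.powersetCard k,
    MvPolynomial.C (∏ j ∈ S, sgn (x j)) *
      ∏ i ∈ T, (MvPolynomial.X (i, none) * ∏ j ∈ S, MvPolynomial.X (i, some j)), ?_, ?_⟩
  · refine (MvPolynomial.totalDegree_finsetSum _ _).trans (Finset.sup_le fun T hT => ?_)
    refine (MvPolynomial.totalDegree_finsetSum _ _).trans (Finset.sup_le fun S hS => ?_)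
    refine (MvPolynomial.totalDegree_mul _ _).trans ?_
    rw [MvPolynomial.totalDegree_C, zero_add]
    refine (MvPolynomial.totalDegree_finsetProd _ _).trans ?_
    calc ∑ i ∈ T, (MvPolynomial.X (i, none) * ∏ j ∈ S, MvPolynomial.X (i, some j) :
          MvPolynomial (Fin N × Option (Fin n)) ℝ).totalDegree ≤ ∑ i ∈ T, (k + 1) := by
          refine sum_le_sum fun i _ => ?_
          refine (MvPolynomial.totalDegree_mul _ _).trans ?_
          have h1 : (MvPolynomial.X (i, none) :
              MvPolynomial (Fin N × Option (Fin n)) ℝ).totalDegree ≤ 1 :=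
            (MvPolynomial.totalDegree_X _).le
          have h2 : (∏ j ∈ S, MvPolynomial.X (i, some j) :
              MvPolynomial (Fin N × Option (Fin n)) ℝ).totalDegree ≤ k := by
            refine (MvPolynomial.totalDegree_finsetProd _ _).trans ?_
            calc ∑ j ∈ S, (MvPolynomial.X (i, some j) :
                MvPolynomial (Fin N × Option (Fin n)) ℝ).totalDegree ≤ ∑ j ∈ S, 1 :=
                  sum_le_sum fun j _ => (MvPolynomial.totalDegree_X _).le
              _ = k := by rw [sum_const, smul_eq_mul, mul_one, (mem_powersetCard.1 hS).2]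
          omega
      _ = d * (k + 1) := by rw [sum_const, smul_eq_mul, (mem_powersetCard.1 hT).2]
  · intro X y
    simp only [map_sum, map_mul, map_prod, MvPolynomial.eval_C, MvPolynomial.eval_X]
    unfold best psi
    refine sum_congr rfl fun T _ => sum_congr rfl fun S _ => ?_
    rw [prod_mul_distrib]
    simp only [Option.elim]
    ring

theorem best_inner (d k : ℕ) (S : Finset (Fin n)) (T : Finset (Fin N)) :
    ∑ X, ∑ y, ∑ x, best N n d k X y x * psi S T X y x =
      if S.card = k ∧ T.card = d then (2 : ℝ) ^ (N * n) * 2 ^ N * 2 ^ n else 0 := by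
  classical
  have e : ∀ X y x, best N n d k X y x * psi S T X y x =
      ∑ T' ∈ univ.powersetCard d, ∑ S' ∈ univ.powersetCard k, psi S' T' X y x * psi S T X y x := by
    intro X y x
    unfold best
    rw [Finset.sum_mul]
    exact sum_congr rfl fun T' _ => Finset.sum_mul _ _ _
  have e2 : ∑ X, ∑ y, ∑ x, best N n d k X y x * psi S T X y x =
      ∑ T' ∈ univ.powersetCard d, ∑ S' ∈ univ.powersetCard k,
        ∑ X, ∑ y, ∑ x, psi S' T' X y x * psi S T X y x := by
    simp_rw [e]
    have s1 : ∀ (X : Fin N → Fin n → Bool) (y : Fin N → Bool),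
        ∑ x, ∑ T' ∈ univ.powersetCard d, ∑ S' ∈ univ.powersetCard k,
          psi S' T' X y x * psi S T X y x =
        ∑ T' ∈ univ.powersetCard d, ∑ S' ∈ univ.powersetCard k,
          ∑ x, psi S' T' X y x * psi S T X y x := by
      intro X y
      rw [sum_comm]
      exact sum_congr rfl fun T' _ => sum_comm
    have s2 : ∀ (X : Fin N → Fin n → Bool),
        ∑ y, ∑ T' ∈ univ.powersetCard d, ∑ S' ∈ univ.powersetCard k,
          ∑ x, psi S' T' X y x * psi S T X y x =
        ∑ T' ∈ univ.powersetCard d, ∑ S' ∈ univ.powersetCard k,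
          ∑ y, ∑ x, psi S' T' X y x * psi S T X y x := by
      intro X
      rw [sum_comm]
      exact sum_congr rfl fun T' _ => sum_comm
    simp_rw [s1, s2]
    rw [sum_comm]
    exact sum_congr rfl fun T' _ => sum_comm
  rw [e2]
  simp_rw [psi_mul]
  by_cases hS : S.card = k
  · by_cases hT : T.card = d
    · rw [if_pos ⟨hS, hT⟩, sum_eq_single_of_mem T (mem_powersetCard.2 ⟨subset_univ _, hT⟩),
        sum_eq_single_of_mem S (mem_powersetCard.2 ⟨subset_univ _, hS⟩), if_pos ⟨rfl, rfl⟩]
      · intro S' _ h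
        exact if_neg (fun h' => h h'.1)
      · intro T' _ h
        exact sum_eq_zero fun S' _ => if_neg (fun h' => h h'.2)
    · rw [if_neg (fun h => hT h.2)]
      refine sum_eq_zero fun T' hT' => sum_eq_zero fun S' _ => if_neg (fun h => hT ?_)
      rw [← h.2]
      exact (mem_powersetCard.1 hT').2
  · rw [if_neg (fun h => hS h.1)]
    refine sum_eq_zero fun T' _ => sum_eq_zero fun S' hS' => if_neg (fun h => hS ?_)
    rw [← h.1]
    exact (mem_powersetCard.1 hS').2

theorem best_adv (d k : ℕ) (S : Finset (Fin n)) (hS : S.card = k) :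
    adv (best N n d k) (par S) = N.choose d := by
  classical
  unfold adv meanE
  rw [at_labels]
  simp_rw [best_inner]
  rw [← sum_filter]
  have e : (univ.filter fun T : Finset (Fin N) => S.card = k ∧ T.card = d) =
      univ.powersetCard d := by
    ext T
    rw [mem_filter, mem_powersetCard]
    exact ⟨fun h => ⟨subset_univ _, h.2.2⟩, fun h => ⟨mem_univ _, hS, h.2⟩⟩
  rw [e, sum_const, card_powersetCard, card_univ, Fintype.card_fin, nsmul_eq_mul]
  field_simp

theorem best_moment (d k : ℕ) :
    secondMoment (best N n d k) = (N.choose d : ℝ) * n.choose k := by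
  classical
  unfold secondMoment
  have e : ∀ X y x, best N n d k X y x ^ 2 = ∑ T ∈ univ.powersetCard d,
      ∑ S ∈ univ.powersetCard k, best N n d k X y x * psi S T X y x := by
    intro X y x
    rw [pow_two]
    nth_rewrite 2 [best]
    rw [Finset.mul_sum]
    exact sum_congr rfl fun T _ => Finset.mul_sum _ _ _
  have e2 : ∑ X, ∑ y, ∑ x, best N n d k X y x ^ 2 =
      ∑ T ∈ univ.powersetCard d, ∑ S ∈ univ.powersetCard k,
        ∑ X, ∑ y, ∑ x, best N n d k X y x * psi S T X y x := by
    simp_rw [e]
    have s1 : ∀ (X : Fin N → Fin n → Bool) (y : Fin N → Bool),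
        ∑ x, ∑ T ∈ univ.powersetCard d, ∑ S ∈ univ.powersetCard k,
          best N n d k X y x * psi S T X y x =
        ∑ T ∈ univ.powersetCard d, ∑ S ∈ univ.powersetCard k,
          ∑ x, best N n d k X y x * psi S T X y x := by
      intro X y
      rw [sum_comm]
      exact sum_congr rfl fun T' _ => sum_comm
    have s2 : ∀ (X : Fin N → Fin n → Bool),
        ∑ y, ∑ T ∈ univ.powersetCard d, ∑ S ∈ univ.powersetCard k,
          ∑ x, best N n d k X y x * psi S T X y x =
        ∑ T ∈ univ.powersetCard d, ∑ S ∈ univ.powersetCard k,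
          ∑ y, ∑ x, best N n d k X y x * psi S T X y x := by
      intro X
      rw [sum_comm]
      exact sum_congr rfl fun T' _ => sum_comm
    simp_rw [s1, s2]
    rw [sum_comm]
    exact sum_congr rfl fun T' _ => sum_comm
  rw [e2]
  have e3 : ∀ T ∈ (univ.powersetCard d : Finset (Finset (Fin N))),
      ∀ S ∈ (univ.powersetCard k : Finset (Finset (Fin n))),
      ∑ X, ∑ y, ∑ x, best N n d k X y x * psi S T X y x = (2 : ℝ) ^ (N * n) * 2 ^ N * 2 ^ n := by
    intro T hT S hS
    rw [best_inner, if_pos ⟨(mem_powersetCard.1 hS).2, (mem_powersetCard.1 hT).2⟩]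
  rw [sum_congr rfl (fun T hT => sum_congr rfl (fun S hS => e3 T hT S hS))]
  rw [sum_const, sum_const, card_powersetCard, card_powersetCard, card_univ, card_univ,
    Fintype.card_fin, Fintype.card_fin, nsmul_eq_mul, nsmul_eq_mul]
  field_simp

end Pool.Agent.Q330.DNF
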